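import Pool.Agent.Helper937.EtaB
import Pool.Agent.Helper937.EtaC

/-!
# The relation `η_ω → (3, η_ω)²` is not a theorem of ZFC

A ccc notion of forcing with finite conditions adds a triangle-free relation on `κ × ℕ` such that
no large set is independent, and makes `2^ℵ_n = κ` for all finite `n`. In ZFC, the existence of such
a relation together with this cardinal arithmetic refutes `η_ω → (3, η_ω)²`.
-/

set_option autoImplicit false

namespace Pool.Agent.Results.MP_353193_lc.ConsistentlyNo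

open Cardinal
open Pool.Agent.Helper937.Eta (Principle Adm CCC FewNames ManyReals ForcesPrinciple)

/-- The positive answer to Q1 (the proposition of the frozen statement `S09341`). -/
def PositiveQ1 : Prop :=
    ∀ (R : Set (Ordinal.{0} → Bool)) (lt : (Ordinal.{0} → Bool) → (Ordinal.{0} → Bool) → Prop),
      (∀ f, f ∈ R ↔ ((∃ ν, f ν = true) ∧
          ∃ β : Ordinal.{0}, β < (Cardinal.aleph (Ordinal.omega0 : Ordinal.{0})).ord ∧
            ∀ ν, f ν = true → ν < β)) →
      (∀ f g, lt f g ↔ ∃ ν : Ordinal.{0}, (∀ μ, μ < ν → f μ = g μ) ∧ f ν = false ∧ g ν = true) →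
      ∀ G : SimpleGraph (Ordinal.{0} → Bool),
        (∀ a ∈ R, ∀ b ∈ R, ∀ c ∈ R, ¬ (G.Adj a b ∧ G.Adj b c ∧ G.Adj a c)) →
        ∃ φ : (Ordinal.{0} → Bool) → (Ordinal.{0} → Bool),
          (∀ f ∈ R, φ f ∈ R) ∧
          (∀ f ∈ R, ∀ g ∈ R, lt f g → lt (φ f) (φ g)) ∧
          (∀ f ∈ R, ∀ g ∈ R, ¬ G.Adj (φ f) (φ g))

/-- **Main theorem** (no hypothesis). (1) There is a regular cardinal `κ > ℵ_ω` with `κ^ℵ_n = κ`
for all finite `n`. (2) For each such `κ` the poset of finite conditions is ccc, it forces that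
`2^ℵ_n ≤ κ` for all finite `n` (at most `κ` names for subsets of a set of size `ℵ_n`), that
`κ ≤ 2^ℵ_0` (names for `κ` many pairwise different subsets of `ℕ`), and that the generic relation
is a witness of `Principle κ`. (3) In ZFC: if `κ` is regular, `2^ℵ_n = κ` for all finite `n` and
`Principle κ` holds, then `η_ω → (3, η_ω)²` fails. -/
theorem result :
    (∃ κ : Cardinal.{0}, Adm κ) ∧
    (∀ κ : Cardinal.{0}, Adm κ → CCC κ ∧ FewNames κ ∧ ManyReals κ ∧ ForcesPrinciple κ) ∧
    (∀ κ : Cardinal.{0}, κ.IsRegular →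
      (∀ n : ℕ, (2 : Cardinal.{0}) ^ (Cardinal.aleph (n : Ordinal.{0})) = κ) →
      Principle κ → ¬ PositiveQ1) :=
  ⟨Pool.Agent.Helper937.Eta.exists_kappa, fun _ h => Pool.Agent.Helper937.Eta.forced h,
    fun _ h1 h2 h3 => Pool.Agent.Helper937.Eta.not_stmt h1 h2 h3⟩

end Pool.Agent.Results.MP_353193_lc.ConsistentlyNo
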